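import Pool.Agent.R304.UN.Core

/-! Functionals of the values of zeta in the strip, approximated by functions on tori. -/

open Complex Filter Topology Set MeasureTheory

namespace Pool.Agent.R304.UP

open ZU H370 H370.A2 H370.AS H295SI TH803TW TH803UC R304.UN

/-- bounded functionals, uniformly continuous for the supremum over `K` -/
structure Fnl (K : Set ℂ) (Φ : (ℂ → ℂ) → ℝ) (B : ℝ) : Prop where
  bdd : ∀ g, |Φ g| ≤ B
  unif : ∀ ε : ℝ, 0 < ε → ∃ δ : ℝ, 0 < δ ∧ ∀ g h : ℂ → ℂ, (∀ z ∈ K, ‖g z - h z‖ ≤ δ) →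
    |Φ g - Φ h| ≤ ε

/-- the shifted function -/
noncomputable def sh (t : ℝ) : ℂ → ℂ := fun z => riemannZeta (z + t * I)

lemma EE_bound {a b B : ℝ} (h1 : 0 < a) (M : ℕ) : ∃ C : ℝ, 0 < C ∧
    ∀ (x : UnitAddTorus (Fin (pr M).card)), ∀ z ∈ rect a b B, ‖EE M x z‖ ≤ C := by
  have hp1 : ∀ p ∈ pr M, 0 < 1 - (p : ℝ) ^ (-a) := by
    intro p hp
    have hpp : p.Prime := by
      unfold pr at hp
      exact (Finset.mem_filter.mp hp).2
    have h2 : (1 : ℝ) < p := by exact_mod_cast hpp.one_lt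
    have := Real.rpow_lt_one_of_one_lt_of_neg h2 (show -a < 0 by linarith)
    linarith
  have hP : 0 < ∏ p ∈ pr M, (1 - (p : ℝ) ^ (-a)) := Finset.prod_pos hp1
  refine ⟨(∏ p ∈ pr M, (1 - (p : ℝ) ^ (-a)))⁻¹, inv_pos.mpr hP, fun x z hz => ?_⟩
  unfold EE
  rw [norm_inv]
  apply inv_anti₀ hP
  unfold EM
  rw [norm_prod]
  refine Finset.prod_le_prod (fun p hp => (hp1 p hp).le) fun p hp => ?_
  have hpp : p.Prime := by
    unfold pr at hp
    exact (Finset.mem_filter.mp hp).2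
  have h2 : (1 : ℝ) < p := by exact_mod_cast hpp.one_lt
  have h3 : ‖om M x p * (p : ℂ) ^ (-z)‖ = (p : ℝ) ^ (-z.re) := by
    rw [norm_mul, om_norm, one_mul, Complex.norm_natCast_cpow_of_pos hpp.pos, Complex.neg_re]
  have h4 : (p : ℝ) ^ (-z.re) ≤ (p : ℝ) ^ (-a) :=
    Real.rpow_le_rpow_of_exponent_le h2.le (by linarith [hz.1])
  have h5 := norm_sub_norm_le (1 : ℂ) (om M x p * (p : ℂ) ^ (-z))
  rw [norm_one, h3] at h5
  linarith

/-- approximation of a functional by a function on a torus, off a small set -/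
theorem approx {K : Set ℂ} (hK : IsCompact K) (hKs : K ⊆ {z | 1 / 2 < z.re ∧ z.re < 1})
    {Φ : (ℂ → ℂ) → ℝ} {B0 : ℝ} (hΦ : Fnl K Φ B0) {ε η : ℝ} (hε : 0 < ε) (hη : 0 < η) :
    ∃ (M : ℕ) (g : C(UnitAddTorus (Fin (pr M).card), ℝ)) (Bd : Set ℝ),
      (∀ t ∉ Bd, |Φ (sh t) - g (torusPt (al M) t)| ≤ ε) ∧ (∀ x, |g x| ≤ B0) ∧
      ∃ X0 : ℝ, 0 < X0 ∧ ∀ X ≥ X0, volume ({t : ℝ | ∃ t' ∈ Bd, |t - t'| ≤ 1} ∩ Icc 0 X) ≤
        ENNReal.ofReal (η * X) := by
  obtain ⟨a, b, B, h1, h2, h3, h4, hsub⟩ := exists_rectW K hK hKs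
  obtain ⟨M0, hM0⟩ := bad_measure a b (B + 1) (1 / 2) (η / 2) h1 h2 h3 (by linarith) (by norm_num)
    (by positivity)
  obtain ⟨X1, hX1, hm1⟩ := hM0 M0 le_rfl
  obtain ⟨C0, hC0, hC⟩ := EE_bound (a := a) (b := b) (B := B) (by linarith) M0
  obtain ⟨δ, hδ, hun⟩ := hΦ.unif ε hε
  obtain ⟨θ, hθ⟩ : ∃ θ, θ = min (1 / 2) (δ / (3 * C0)) := ⟨_, rfl⟩
  have hθ0 : 0 < θ := by rw [hθ]; positivity
  have hθ1 : θ ≤ 1 / 2 := by rw [hθ]; exact min_le_left _ _
  have hθδ : θ * (3 * C0) ≤ δ := by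
    have : θ ≤ δ / (3 * C0) := by rw [hθ]; exact min_le_right _ _
    rwa [le_div_iff₀ (by positivity)] at this
  obtain ⟨M1, hM1⟩ := bad_measure a b (B + 1) θ (η / 2) h1 h2 h3 (by linarith) hθ0 (by positivity)
  obtain ⟨X2, hX2, hm2⟩ := hM1 M1 le_rfl
  have hcont : Continuous fun x : UnitAddTorus (Fin (pr M1).card) => Φ (EE M1 x) := by
    rw [continuous_iff_continuousAt]
    intro x
    rw [Metric.continuousAt_iff']
    intro e he
    obtain ⟨d, hd, hd2⟩ := hΦ.unif (e / 2) (by positivity)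
    filter_upwards [EE_near a b B (by linarith) M1 x hd] with y hy
    rw [Real.dist_eq]
    have := hd2 (EE M1 y) (EE M1 x) fun z hz => (hy z (hsub hz)).le
    linarith
  refine ⟨M1, ⟨fun x => Φ (EE M1 x), hcont⟩, bad M0 a b B (1 / 2) ∪ bad M1 a b B θ, ?_, ?_,
    max X1 X2, lt_max_of_lt_left hX1, ?_⟩
  · intro t ht
    rw [Set.mem_union, not_or] at ht
    obtain ⟨ht0, ht1⟩ := ht
    refine hun _ _ fun z hz => ?_
    obtain ⟨g1, g2⟩ := good_rel hθ1 ht1 (hsub hz)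
    obtain ⟨g3, -⟩ := good_rel le_rfl ht0 (hsub hz)
    have g4 := hC (torusPt (al M0) t) z (hsub hz)
    have g5 : ‖riemannZeta (z + t * I)‖ ≤ 3 / 2 * C0 := by
      have e : riemannZeta (z + t * I) = (riemannZeta (z + t * I) - EE M0 (torusPt (al M0) t) z) +
        EE M0 (torusPt (al M0) t) z := by ring
      rw [e]
      have := norm_add_le (riemannZeta (z + t * I) - EE M0 (torusPt (al M0) t) z)
        (EE M0 (torusPt (al M0) t) z)
      linarith
    have g6 : ‖EE M1 (torusPt (al M1) t) z‖ ≤ 3 * C0 := by linarith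
    exact g1.trans ((mul_le_mul_of_nonneg_left g6 hθ0.le).trans hθδ)
  · intro x
    exact hΦ.bdd _
  · intro X hX
    have hXa : X1 ≤ X := (le_max_left _ _).trans hX
    have hXb : X2 ≤ X := (le_max_right _ _).trans hX
    have hX0 : 0 < X := hX1.trans_le hXa
    have hcov : {t : ℝ | ∃ t' ∈ bad M0 a b B (1 / 2) ∪ bad M1 a b B θ, |t - t'| ≤ 1} ∩ Icc 0 X ⊆
        (bad M0 a b (B + 1) (1 / 2) ∩ Icc 0 X) ∪ (bad M1 a b (B + 1) θ ∩ Icc 0 X) := by
      rintro t ⟨⟨t', ht', htt⟩, ht⟩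
      rcases ht' with ht' | ht'
      · exact Or.inl ⟨bad_near ht' htt, ht⟩
      · exact Or.inr ⟨bad_near ht' htt, ht⟩
    refine (measure_mono hcov).trans ((measure_union_le _ _).trans
      ((add_le_add (hm1 X hXa) (hm2 X hXb)).trans ?_))
    rw [← ENNReal.ofReal_add (by positivity) (by positivity)]
    apply ENNReal.ofReal_le_ofReal
    linarith

/-- the values depend continuously on the shift -/
theorem sh_cont {K : Set ℂ} (hK : IsCompact K) (hKs : K ⊆ {z | 1 / 2 < z.re ∧ z.re < 1})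
    {Φ : (ℂ → ℂ) → ℝ} {B0 : ℝ} (hΦ : Fnl K Φ B0) : Continuous fun t : ℝ => Φ (sh t) := by
  rw [continuous_iff_continuousAt]
  intro t
  rw [Metric.continuousAt_iff]
  intro e he
  obtain ⟨d, hd, hd2⟩ := hΦ.unif (e / 2) (by positivity)
  set Q : Set ℂ := (fun q : ℂ × ℝ => q.1 + q.2 * I) '' (K ×ˢ Icc (t - 1) (t + 1)) with hQ
  have hQc : IsCompact Q := (hK.prod isCompact_Icc).image (by fun_prop)
  have hzc : ContinuousOn riemannZeta Q := by
    rintro _ ⟨⟨z, u⟩, ⟨hz, hu⟩, rfl⟩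
    have hne : z + u * I ≠ 1 := by
      intro hh
      have h1 := congrArg Complex.re hh
      simp at h1
      linarith [(hKs hz).2]
    exact (differentiableAt_riemannZeta hne).continuousAt.continuousWithinAt
  obtain ⟨h, hh, huc⟩ := Metric.uniformContinuousOn_iff.mp
    (hQc.uniformContinuousOn_of_continuous hzc) d hd
  refine ⟨min h 1, lt_min hh one_pos, fun u hu => ?_⟩
  have hu1 : |u - t| < h := by
    rw [← Real.dist_eq]; exact hu.trans_le (min_le_left _ _)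
  have hu2 : |u - t| < 1 := by
    rw [← Real.dist_eq]; exact hu.trans_le (min_le_right _ _)
  rw [Real.dist_eq]
  have := hd2 (sh u) (sh t) fun z hz => by
    unfold sh
    have h1 : z + u * I ∈ Q := ⟨(z, u), ⟨hz, by
      rw [abs_lt] at hu2
      exact ⟨by linarith, by linarith⟩⟩, rfl⟩
    have h2 : z + t * I ∈ Q := ⟨(z, t), ⟨hz, ⟨by linarith, by linarith⟩⟩, rfl⟩
    have h3 := huc _ h1 _ h2 (by
      rw [dist_eq_norm]
      have e1 : z + u * I - (z + t * I) = ((u - t : ℝ) : ℂ) * I := by push_cast; ring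
      rw [e1, norm_mul, Complex.norm_I, mul_one, Complex.norm_real, Real.norm_eq_abs]
      exact hu1)
    rw [dist_eq_norm] at h3
    exact h3.le
  linarith

/-- comparison of the mean values -/
lemma mean_diff {w φ : ℝ → ℝ} (hw : Continuous w) (hφ : Continuous φ) {B0 ε η X : ℝ}
    (hB : 0 ≤ B0) (hε : 0 ≤ ε) (hη : 0 ≤ η) (hX : 0 < X)
    (hwB : ∀ t, |w t| ≤ B0) (hφB : ∀ t, |φ t| ≤ B0) {E : Set ℝ}
    (hE : ∀ t ∉ E, |w t - φ t| ≤ ε) (hEm : volume (E ∩ Icc 0 X) ≤ ENNReal.ofReal (η * X)) :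
    |(∫ t in (0 : ℝ)..X, w t) - ∫ t in (0 : ℝ)..X, φ t| ≤ (ε + 2 * B0 * η) * X := by
  rw [← intervalIntegral.integral_sub (hw.intervalIntegrable _ _) (hφ.intervalIntegrable _ _)]
  refine (intervalIntegral.abs_integral_le_integral_abs hX.le).trans ?_
  rw [intervalIntegral.integral_of_le hX.le]
  set E' := toMeasurable volume (E ∩ Icc 0 X) with hE'
  have hE'm : MeasurableSet E' := measurableSet_toMeasurable _ _
  have hvol : volume E' ≤ ENNReal.ofReal (η * X) := by rw [hE', measure_toMeasurable]; exact hEm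
  have hpt : ∀ t ∈ Ioc 0 X, |w t - φ t| ≤ ε + E'.indicator (fun _ => 2 * B0) t := by
    intro t ht
    by_cases h : t ∈ E
    · have h1 : t ∈ E' := subset_toMeasurable _ _ ⟨h, ht.1.le, ht.2⟩
      rw [Set.indicator_of_mem h1]
      have h2 := abs_sub (w t) (φ t)
      have h3 := hwB t
      have h4 := hφB t
      linarith
    · have h2 := hE t h
      have h3 : 0 ≤ E'.indicator (fun _ => 2 * B0) t := Set.indicator_nonneg (fun _ _ => by positivity) t
      linarith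
  have hint1 : IntegrableOn (fun t => |w t - φ t|) (Ioc 0 X) :=
    ((hw.sub hφ).abs.continuousOn.integrableOn_compact isCompact_Icc).mono_set Ioc_subset_Icc_self
  have hfin : volume (Ioc (0 : ℝ) X) ≠ ⊤ := by rw [Real.volume_Ioc]; exact ENNReal.ofReal_ne_top
  have hint2 : IntegrableOn (fun t => ε + E'.indicator (fun _ => 2 * B0) t) (Ioc 0 X) :=
    (integrableOn_const hfin).add ((integrableOn_const hfin).indicator hE'm)
  refine (setIntegral_mono_on hint1 hint2 measurableSet_Ioc hpt).trans ?_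
  have i1 : Integrable (fun _ : ℝ => ε) (volume.restrict (Ioc 0 X)) := integrableOn_const hfin
  have i2 : Integrable (E'.indicator (fun _ : ℝ => 2 * B0)) (volume.restrict (Ioc 0 X)) :=
    (integrableOn_const hfin).indicator hE'm
  rw [integral_add i1 i2, setIntegral_const, setIntegral_indicator hE'm, setIntegral_const, smul_eq_mul, smul_eq_mul,
    Measure.real, Measure.real, Real.volume_Ioc, sub_zero, ENNReal.toReal_ofReal hX.le]
  have h5 : (volume (Ioc 0 X ∩ E')).toReal ≤ η * X :=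
    ENNReal.toReal_le_of_le_ofReal (by positivity) ((measure_mono inter_subset_right).trans hvol)
  nlinarith [mul_le_mul_of_nonneg_right h5 (show 0 ≤ 2 * B0 by positivity)]

end Pool.Agent.R304.UP
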