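import Pool.Agent.R304.UP.Small
import Pool.Agent.R304.UP.Fnl
import Pool.Agent.Results.MP_103a5c_nt.BohrSetPairs

/-! Pairs of zeros and values of zeta in the strip. -/

open Complex Filter Topology Set MeasureTheory

namespace Pool.Agent.R304.UP

open ZU H370 H370.A2 H370.AS H295SI TH803TW TH803UC R304.UN
open Pool.Agent.Results.MP_103a5c_nt.BohrSetPairs (pairSum TestFn mont dyadic)

/-- the total weight -/
lemma total (hRH : SP.RHs) : ∃ C T0 : ℝ, 0 < C ∧ 10 ≤ T0 ∧ ∀ T : ℝ, T0 ≤ T →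
    ∑ s ∈ Zf riemannZeta T (2 * T), (mult riemannZeta s : ℝ) * nn T s ≤ C * (T * Real.log T) := by
  classical
  obtain ⟨C1, T1, hC1, hT1, hint⟩ := interior hRH
  obtain ⟨C2, hC2, hbd⟩ := boundary
  have ev : ∀ᶠ T : ℝ in atTop, Real.log T ^ 4 / (1 * T + 0) < 1 :=
    (Real.tendsto_pow_log_div_mul_add_atTop 1 0 4 one_ne_zero).eventually
      (gt_mem_nhds (show (0 : ℝ) < 1 by norm_num))
  obtain ⟨T2, hT2⟩ := ev.exists_forall_of_atTop
  refine ⟨2 * C1 + 2 * C2, max T1 T2, by positivity, le_max_of_le_left hT1, fun T hT => ?_⟩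
  have hTT1 : T1 ≤ T := (le_max_left _ _).trans hT
  have hT10 := hT1.trans hTT1
  have hL := log_ge hT10
  have h2 := hT2 T ((le_max_right _ _).trans hT)
  rw [one_mul, add_zero, div_lt_iff₀ (by linarith)] at h2
  set L := Real.log T with hLdef
  have hL2 : L ≤ T := by nlinarith [sq_nonneg (L ^ 2 - 1), sq_nonneg L, sq_nonneg (L - 1)]
  set F := Zf riemannZeta T (2 * T) with hF
  set F1 := F.filter (fun s => T + 2 * L ≤ s.im ∧ s.im ≤ 2 * T - 2 * L) with hF1
  set F2 := F.filter (fun s => |s.im - T| ≤ 2 * L) with hF2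
  set F3 := F.filter (fun s => |s.im - 2 * T| ≤ 2 * L) with hF3
  have hcov : F ⊆ F1 ∪ F2 ∪ F3 := by
    intro s hs
    have h3 := (H370.mem_Zf good_zeta (by linarith)).mp hs
    obtain ⟨-, -, h4, h5, -⟩ := h3
    rw [Finset.mem_union, Finset.mem_union, hF1, hF2, hF3, Finset.mem_filter, Finset.mem_filter,
      Finset.mem_filter]
    rcases le_or_gt (T + 2 * L) s.im with h6 | h6
    · rcases le_or_gt s.im (2 * T - 2 * L) with h7 | h7
      · exact Or.inl (Or.inl ⟨hs, h6, h7⟩)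
      · exact Or.inr ⟨hs, by rw [abs_le]; constructor <;> linarith⟩
    · exact Or.inl (Or.inr ⟨hs, by rw [abs_le]; constructor <;> linarith⟩)
  have hpos : ∀ s : ℂ, 0 ≤ (mult riemannZeta s : ℝ) * nn T s := fun s =>
    mul_nonneg (Nat.cast_nonneg _) (nn_nonneg T s)
  have hhalf : 1 / (2 * L) ≤ 1 / 2 := one_div_le_one_div_of_le (by norm_num) (by linarith)
  have g1 := hint T hTT1 1 one_pos (Icc (T + L) (2 * T - L)) measurableSet_Icc le_rfl F1
    (Finset.filter_subset _ _) (by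
      intro s hs t ht
      rw [hF1, Finset.mem_filter] at hs
      obtain ⟨hs1, hs2, hs3⟩ := hs
      obtain ⟨ht1, ht2⟩ := ht
      constructor <;> linarith)
  have g2 := hbd T hT10 T F2 (Finset.filter_subset _ _) (fun s hs => (Finset.mem_filter.mp hs).2)
  have g3 := hbd T hT10 (2 * T) F3 (Finset.filter_subset _ _)
    (fun s hs => (Finset.mem_filter.mp hs).2)
  have g4 : ∑ s ∈ F, (mult riemannZeta s : ℝ) * nn T s ≤
      ∑ s ∈ F1, (mult riemannZeta s : ℝ) * nn T s + ∑ s ∈ F2, (mult riemannZeta s : ℝ) * nn T s +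
        ∑ s ∈ F3, (mult riemannZeta s : ℝ) * nn T s := by
    refine (Finset.sum_le_sum_of_subset_of_nonneg hcov fun s _ _ => hpos s).trans ?_
    have h3 : ∀ X Y : Finset ℂ, ∑ s ∈ X ∪ Y, (mult riemannZeta s : ℝ) * nn T s ≤
        ∑ s ∈ X, (mult riemannZeta s : ℝ) * nn T s + ∑ s ∈ Y, (mult riemannZeta s : ℝ) * nn T s := by
      intro X Y
      have := Finset.sum_union_inter (s₁ := X) (s₂ := Y)
        (f := fun s => (mult riemannZeta s : ℝ) * nn T s)
      have h4 : 0 ≤ ∑ s ∈ X ∩ Y, (mult riemannZeta s : ℝ) * nn T s :=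
        Finset.sum_nonneg fun s _ => hpos s
      linarith
    have h4 := h3 (F1 ∪ F2) F3
    have h5 := h3 F1 F2
    linarith
  have k0 : (volume (Icc (T + L) (2 * T - L))).toReal ≤ T := by
    rw [Real.volume_Icc]
    refine ENNReal.toReal_le_of_le_ofReal (by linarith) (ENNReal.ofReal_le_ofReal (by linarith))
  have k1 : C1 * L * (1 ^ 2 * (volume (Icc (T + L) (2 * T - L))).toReal + T / 1 ^ 2) ≤
      2 * C1 * (T * L) := by
    have : C1 * L * (1 ^ 2 * (volume (Icc (T + L) (2 * T - L))).toReal + T / 1 ^ 2) ≤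
        C1 * L * (T + T) := by
      apply mul_le_mul_of_nonneg_left _ (by positivity)
      rw [one_pow, one_mul, div_one]
      linarith
    linarith
  have k2 : C2 * L ^ 4 ≤ C2 * (T * L) := by
    apply mul_le_mul_of_nonneg_left _ hC2.le
    nlinarith
  linarith

/-- comparison of two weights -/
lemma diff_le {R : ℝ → ℝ} {K0 : ℝ} (hK0 : 0 ≤ K0)
    (hdec : ∀ x : ℝ, |Pool.Agent.Results.MP_103a5c_nt.BohrSetPairs.r R x| ≤ K0 / (1 + x ^ 2))
    (w φ : ℝ → ℝ) {T : ℝ} (hT : 1 ≤ T) :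
    |pairSum R w T T (2 * T) - pairSum R φ T T (2 * T)| ≤
      40 * K0 * ∑ s ∈ Zf riemannZeta T (2 * T),
        |w s.im - φ s.im| * ((mult riemannZeta s : ℝ) * nn T s) := by
  have e : ∀ v : ℝ → ℝ, pairSum R v T T (2 * T) = ∑ s ∈ Zf riemannZeta T (2 * T),
      ∑ s' ∈ Zf riemannZeta T (2 * T), (mult riemannZeta s : ℝ) * (mult riemannZeta s' : ℝ) *
        (Pool.Agent.Results.MP_103a5c_nt.BohrSetPairs.r R
          ((s.im - s'.im) * Real.log T / (2 * Real.pi)) * v s.im) := by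
    intro v
    unfold pairSum
    rw [Pool.Agent.Results.MP_103a5c_nt.BohrSetPairs.zeros_eq, H370.finsum_Zf H370.good_zeta hT]
    refine Finset.sum_congr rfl fun s _ => ?_
    rw [H370.finsum_Zf H370.good_zeta hT]
    rfl
  rw [e, e, ← Finset.sum_sub_distrib]
  refine (Finset.abs_sum_le_sum_abs _ _).trans ?_
  rw [Finset.mul_sum]
  refine Finset.sum_le_sum fun s _ => ?_
  rw [← Finset.sum_sub_distrib]
  refine (Finset.abs_sum_le_sum_abs _ _).trans ?_
  unfold nn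
  have e2 : 40 * K0 * (|w s.im - φ s.im| * ((mult riemannZeta s : ℝ) *
      ∑ s' ∈ Zf riemannZeta T (2 * T), (mult riemannZeta s' : ℝ) *
        (1 / (1 + (Real.log T * (s'.im - s.im)) ^ 2)))) =
      ∑ s' ∈ Zf riemannZeta T (2 * T), 40 * K0 * |w s.im - φ s.im| * (mult riemannZeta s : ℝ) *
        ((mult riemannZeta s' : ℝ) * (1 / (1 + (Real.log T * (s'.im - s.im)) ^ 2))) := by
    rw [← Finset.mul_sum]
    ring
  rw [e2]
  refine Finset.sum_le_sum fun s' _ => ?_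
  have e3 : (mult riemannZeta s : ℝ) * (mult riemannZeta s' : ℝ) *
        (Pool.Agent.Results.MP_103a5c_nt.BohrSetPairs.r R
          ((s.im - s'.im) * Real.log T / (2 * Real.pi)) * w s.im) -
      (mult riemannZeta s : ℝ) * (mult riemannZeta s' : ℝ) *
        (Pool.Agent.Results.MP_103a5c_nt.BohrSetPairs.r R
          ((s.im - s'.im) * Real.log T / (2 * Real.pi)) * φ s.im) =
      ((mult riemannZeta s : ℝ) * (mult riemannZeta s' : ℝ)) *
        (Pool.Agent.Results.MP_103a5c_nt.BohrSetPairs.r R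
          ((s.im - s'.im) * Real.log T / (2 * Real.pi)) * (w s.im - φ s.im)) := by ring
  rw [e3, abs_mul, abs_of_nonneg (show (0 : ℝ) ≤ (mult riemannZeta s : ℝ) *
    (mult riemannZeta s' : ℝ) by positivity), abs_mul]
  have h1 := hdec ((s.im - s'.im) * Real.log T / (2 * Real.pi))
  have h2 : K0 / (1 + ((s.im - s'.im) * Real.log T / (2 * Real.pi)) ^ 2) ≤
      40 * K0 * (1 / (1 + (Real.log T * (s'.im - s.im)) ^ 2)) := by
    rw [mul_one_div, div_le_div_iff₀ (by positivity) (by positivity)]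
    set y := Real.log T * (s'.im - s.im) with hy
    have e4 : ((s.im - s'.im) * Real.log T / (2 * Real.pi)) ^ 2 = y ^ 2 / (2 * Real.pi) ^ 2 := by
      rw [hy, ← div_pow]
      have : (s.im - s'.im) * Real.log T / (2 * Real.pi) =
        -(Real.log T * (s'.im - s.im) / (2 * Real.pi)) := by ring
      rw [this, neg_sq]
    rw [e4]
    have hpi := Real.pi_lt_d2
    have hpi0 := Real.pi_pos
    have h3 : (2 * Real.pi) ^ 2 ≤ 40 := by nlinarith
    have h4 : y ^ 2 / 40 ≤ y ^ 2 / (2 * Real.pi) ^ 2 :=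
      div_le_div_of_nonneg_left (sq_nonneg y) (by positivity) h3
    have h5 : K0 * (1 + y ^ 2) ≤ K0 * (40 * (1 + y ^ 2 / (2 * Real.pi) ^ 2)) := by
      apply mul_le_mul_of_nonneg_left _ hK0
      linarith
    linarith
  have h3 := h1.trans h2
  have h4 : 0 ≤ |w s.im - φ s.im| := abs_nonneg _
  have h5 := mul_le_mul_of_nonneg_right h3 h4
  have h6 := mul_le_mul_of_nonneg_left h5
    (show 0 ≤ (mult riemannZeta s : ℝ) * (mult riemannZeta s' : ℝ) by positivity)
  refine h6.trans (le_of_eq ?_)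
  ring

/-- the mean value of a function on the torus along the orbit -/
lemma torus_mean {M : ℕ} (g : C(UnitAddTorus (Fin (pr M).card), ℝ)) {η : ℝ} (hη : 0 < η) :
    ∃ X0 : ℝ, 0 < X0 ∧ ∀ X ≥ X0, |(∫ t in (0 : ℝ)..X, g (torusPt (al M) t)) -
      (∫ x, g x ∂(haarT (pr M).card)) * X| ≤ η * X := by
  have htc : Continuous fun t : ℝ => torusPt (al M) t := by
    unfold torusPt
    refine continuous_pi fun j => ?_
    exact (AddCircle.continuous_mk' _).comp (continuous_const.mul continuous_id)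
  have hgc : Continuous fun t : ℝ => g (torusPt (al M) t) := g.continuous.comp htc
  obtain ⟨X1, hX1, h1⟩ := mean_le (APm_torus (al_indep M) g) hgc hη
  obtain ⟨X2, hX2, h2⟩ := mean_le (APm_torus (al_indep M) (-g)) ((-g).continuous.comp htc) hη
  refine ⟨max X1 X2, lt_max_of_lt_left hX1, fun X hX => ?_⟩
  have a1 := h1 X ((le_max_left _ _).trans hX)
  have a2 := h2 X ((le_max_right _ _).trans hX)
  simp only [ContinuousMap.coe_neg, Pi.neg_apply, intervalIntegral.integral_neg,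
    integral_neg] at a2
  rw [abs_le]
  constructor <;> nlinarith

/-- everything about the approximation -/
theorem approx' {K : Set ℂ} (hK : IsCompact K) (hKs : K ⊆ {z | 1 / 2 < z.re ∧ z.re < 1})
    {Φ : (ℂ → ℂ) → ℝ} {B0 : ℝ} (hΦ : Fnl K Φ B0) {ε η : ℝ} (hε : 0 < ε) (hη : 0 < η) :
    ∃ (M : ℕ) (g : C(UnitAddTorus (Fin (pr M).card), ℝ)) (Bd : Set ℝ),
      (∀ t ∉ Bd, |Φ (sh t) - g (torusPt (al M) t)| ≤ ε) ∧ (∀ x, |g x| ≤ B0) ∧
      ∃ X0 : ℝ, 0 < X0 ∧ ∀ X ≥ X0, volume ({t : ℝ | ∃ t' ∈ Bd, |t - t'| ≤ 1} ∩ Icc 0 X) ≤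
        ENNReal.ofReal (η * X) ∧
      |(∫ t in (0 : ℝ)..X, Φ (sh t)) - (∫ x, g x ∂(haarT (pr M).card)) * X| ≤
        (ε + 2 * B0 * η + η) * X := by
  obtain ⟨M, g, Bd, h1, h2, X0, hX0, h3⟩ := approx hK hKs hΦ hε hη
  obtain ⟨X1, hX1, h4⟩ := torus_mean g hη
  refine ⟨M, g, Bd, h1, h2, max X0 X1, lt_max_of_lt_left hX0, fun X hX => ?_⟩
  have hXa : X0 ≤ X := (le_max_left _ _).trans hX
  have hXb : X1 ≤ X := (le_max_right _ _).trans hX
  have hXp : 0 < X := hX0.trans_le hXa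
  have hB0 : 0 ≤ B0 := (abs_nonneg _).trans (hΦ.bdd (sh 0))
  have htc : Continuous fun t : ℝ => torusPt (al M) t := by
    unfold torusPt
    refine continuous_pi fun j => ?_
    exact (AddCircle.continuous_mk' _).comp (continuous_const.mul continuous_id)
  have hgc : Continuous fun t : ℝ => g (torusPt (al M) t) := g.continuous.comp htc
  refine ⟨h3 X hXa, ?_⟩
  have h5 := mean_diff (sh_cont hK hKs hΦ) hgc hB0 hε.le hη.le hXp (fun t => hΦ.bdd _)
    (fun t => h2 _) (E := Bd) h1 ((measure_mono (by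
      rintro t ⟨ht, ht2⟩
      exact ⟨⟨t, ht, by simp⟩, ht2⟩)).trans (h3 X hXa))
  have h6 := h4 X hXb
  have h7 := abs_sub_le (∫ t in (0 : ℝ)..X, Φ (sh t)) (∫ t in (0 : ℝ)..X, g (torusPt (al M) t))
    ((∫ x, g x ∂(haarT (pr M).card)) * X)
  linarith

/-- the mean value exists -/
theorem mean_exists {K : Set ℂ} (hK : IsCompact K) (hKs : K ⊆ {z | 1 / 2 < z.re ∧ z.re < 1})
    {Φ : (ℂ → ℂ) → ℝ} {B0 : ℝ} (hΦ : Fnl K Φ B0) :
    ∃ m : ℝ, Tendsto (fun X : ℝ => (∫ t in (0 : ℝ)..X, Φ (sh t)) / X) atTop (𝓝 m) := by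
  have hB0 : 0 ≤ B0 := (abs_nonneg _).trans (hΦ.bdd (sh 0))
  apply cauchySeq_tendsto_of_complete
  rw [Metric.cauchySeq_iff']
  intro e he
  obtain ⟨M, g, Bd, -, -, X0, hX0, h⟩ := approx' hK hKs hΦ (ε := e / 8)
    (η := e / (8 * (2 * B0 + 1))) (by positivity) (by positivity)
  refine ⟨X0, fun X hX => ?_⟩
  have key : ∀ Y ≥ X0, |(∫ t in (0 : ℝ)..Y, Φ (sh t)) / Y - ∫ x, g x ∂(haarT (pr M).card)| ≤
      e / 4 := by
    intro Y hY
    have hYp : 0 < Y := hX0.trans_le hY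
    have h1 := (h Y hY).2
    have e1 : (∫ t in (0 : ℝ)..Y, Φ (sh t)) / Y - ∫ x, g x ∂(haarT (pr M).card) =
        ((∫ t in (0 : ℝ)..Y, Φ (sh t)) - (∫ x, g x ∂(haarT (pr M).card)) * Y) / Y := by
      field_simp
    rw [e1, abs_div, abs_of_pos hYp, div_le_iff₀ hYp]
    refine h1.trans (le_of_eq ?_)
    field_simp
    ring
  have h1 := key X hX
  have h2 := key X0 le_rfl
  rw [Real.dist_eq]
  rw [abs_le] at h1 h2
  rw [abs_lt]
  constructor <;> linarith

/-- **Main theorem**: pairs of zeros and functionals of the values of zeta -/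
theorem pairs_main (RH : RiemannHypothesis) {R : ℝ → ℝ} {κ : ℝ} (hR : TestFn R κ) (h0 : 0 < κ)
    (h1 : κ < 1) {K : Set ℂ} (hK : IsCompact K) (hKs : K ⊆ {z | 1 / 2 < z.re ∧ z.re < 1})
    {Φ : (ℂ → ℂ) → ℝ} {B0 : ℝ} (hΦ : Fnl K Φ B0) {m : ℝ}
    (hm : Tendsto (fun X : ℝ => (∫ t in (0 : ℝ)..X, Φ (sh t)) / X) atTop (𝓝 m))
    {ε : ℝ} (hε : 0 < ε) :
    ∃ T₀ : ℝ, ∀ T : ℝ, T₀ ≤ T →
      |pairSum R (fun t => Φ (sh t)) T T (2 * T) - m * mont R * (NN riemannZeta T (2 * T) : ℝ)| ≤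
        ε * (NN riemannZeta T (2 * T) : ℝ) := by
  classical
  have hRHs : SP.RHs := by
    intro s h1 h2 h3
    apply RH s h3
    · rintro ⟨n, hn⟩
      rw [hn] at h1
      norm_num at h1
      have : (0 : ℝ) ≤ n := Nat.cast_nonneg n
      linarith
    · rintro rfl
      norm_num at h2
  have hB0 : 0 ≤ B0 := (abs_nonneg _).trans (hΦ.bdd (sh 0))
  obtain ⟨K1, hK1⟩ := hR.decay
  obtain ⟨K0, hK0, hdec⟩ : ∃ K0 : ℝ, 0 < K0 ∧ ∀ x : ℝ,
      |Pool.Agent.Results.MP_103a5c_nt.BohrSetPairs.r R x| ≤ K0 / (1 + x ^ 2) := by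
    refine ⟨|K1| + 1, by positivity, fun x => (hK1 x).trans ?_⟩
    apply div_le_div_of_nonneg_right _ (by positivity)
    have := le_abs_self K1
    linarith
  obtain ⟨Ct, Tt, hCt, hTt, htot⟩ := total hRHs
  obtain ⟨η, hη, Ts, hTs, hsm⟩ := small_set hRHs (ε := ε / (8 * 7 * 40 * K0 * (2 * B0 + 1)))
    (by positivity)
  set μ := mont R with hμ
  set η1 := min (η / 2) (ε / (16 * (2 * B0 + 1) * (|μ| + 1))) with hη1
  have hη10 : 0 < η1 := by rw [hη1]; positivity
  have hη1a : η1 ≤ η / 2 := min_le_left _ _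
  have hη1b : η1 ≤ ε / (16 * (2 * B0 + 1) * (|μ| + 1)) := min_le_right _ _
  set ε1 := min (ε / (8 * 7 * 40 * K0 * Ct)) (ε / (16 * (|μ| + 1))) with hε1
  have hε10 : 0 < ε1 := by rw [hε1]; positivity
  have hε1a : ε1 ≤ ε / (8 * 7 * 40 * K0 * Ct) := min_le_left _ _
  have hε1b : ε1 ≤ ε / (16 * (|μ| + 1)) := min_le_right _ _
  obtain ⟨M, g, Bd, q1, q2, X0, hX0, q3⟩ := approx' hK hKs hΦ hε10 hη10
  -- the mean value
  have hmg : |m - ∫ x, g x ∂(haarT (pr M).card)| ≤ ε1 + 2 * B0 * η1 + η1 := by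
    have hlim := (hm.sub_const (∫ x, g x ∂(haarT (pr M).card))).abs
    refine le_of_tendsto hlim ?_
    filter_upwards [eventually_ge_atTop X0] with X hX
    have hXp : 0 < X := hX0.trans_le hX
    have e1 : (∫ t in (0 : ℝ)..X, Φ (sh t)) / X - ∫ x, g x ∂(haarT (pr M).card) =
        ((∫ t in (0 : ℝ)..X, Φ (sh t)) - (∫ x, g x ∂(haarT (pr M).card)) * X) / X := by
      field_simp
    rw [e1, abs_div, abs_of_pos hXp, div_le_iff₀ hXp]
    exact (q3 X hX).2
  obtain ⟨T1, hd⟩ := dyadic RH hR h0 h1 (APm_torus (al_indep M) g) (ε := ε / 4) (by positivity)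
  obtain ⟨T4, hT4, hlow⟩ := NN_low good_zeta
  refine ⟨max (max T1 T4) (max (max Tt Ts) (max X0 10)), fun T hT => ?_⟩
  have t1 : T1 ≤ T := ((le_max_left _ _).trans (le_max_left _ _)).trans hT
  have t2 : T4 ≤ T := ((le_max_right _ _).trans (le_max_left _ _)).trans hT
  have t3 : Tt ≤ T := (((le_max_left _ _).trans (le_max_left _ _)).trans (le_max_right _ _)).trans hT
  have t4 : Ts ≤ T := (((le_max_right _ _).trans (le_max_left _ _)).trans (le_max_right _ _)).trans hT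
  have t5 : X0 ≤ T := (((le_max_left _ _).trans (le_max_right _ _)).trans (le_max_right _ _)).trans hT
  have t6 : 10 ≤ T := (((le_max_right _ _).trans (le_max_right _ _)).trans (le_max_right _ _)).trans hT
  have hL := log_ge t6
  have hN := hlow T t2
  have a1 := hd T t1
  rw [Pool.Agent.Results.MP_103a5c_nt.BohrSetPairs.N_eq, ← hμ] at a1
  set NN1 : ℝ := (NN riemannZeta T (2 * T) : ℝ) with hNN1
  have hNN0 : 0 ≤ NN1 := Nat.cast_nonneg _
  -- the difference of the pair sums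
  have a2 := diff_le hK0.le hdec (fun t => Φ (sh t)) (fun t => g (torusPt (al M) t))
    (T := T) (by linarith)
  set F := Zf riemannZeta T (2 * T) with hF
  have hpos : ∀ s : ℂ, 0 ≤ (mult riemannZeta s : ℝ) * nn T s := fun s =>
    mul_nonneg (Nat.cast_nonneg _) (nn_nonneg T s)
  have a3 : ∑ s ∈ F, |Φ (sh s.im) - g (torusPt (al M) s.im)| * ((mult riemannZeta s : ℝ) * nn T s) ≤
      ε1 * ∑ s ∈ F, (mult riemannZeta s : ℝ) * nn T s +
        2 * B0 * ∑ s ∈ F.filter (fun s => s.im ∈ Bd), (mult riemannZeta s : ℝ) * nn T s := by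
    rw [Finset.sum_filter, Finset.mul_sum, Finset.mul_sum, ← Finset.sum_add_distrib]
    refine Finset.sum_le_sum fun s _ => ?_
    have hp := hpos s
    by_cases h : s.im ∈ Bd
    · rw [if_pos h]
      have h2 := abs_sub (Φ (sh s.im)) (g (torusPt (al M) s.im))
      have h3 := hΦ.bdd (sh s.im)
      have h4 := q2 (torusPt (al M) s.im)
      have h5 := mul_le_mul_of_nonneg_right (show |Φ (sh s.im) - g (torusPt (al M) s.im)| ≤ 2 * B0 by
        linarith) hp
      nlinarith [mul_nonneg hε10.le hp]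
    · rw [if_neg h, mul_zero, add_zero]
      exact mul_le_mul_of_nonneg_right (q1 _ h) hp
  have a4 := htot T t3
  have a5 := hsm T t4 {t : ℝ | ∃ t' ∈ Bd, |t - t'| ≤ 1} (by
    refine (measure_mono (inter_subset_inter_right _ ?_)).trans ((q3 (2 * T) (by linarith)).1.trans ?_)
    · exact Icc_subset_Icc_left (by linarith)
    · apply ENNReal.ofReal_le_ofReal
      nlinarith) (F.filter (fun s => s.im ∈ Bd)) (Finset.filter_subset _ _) (by
      intro s hs t ht
      exact ⟨s.im, (Finset.mem_filter.mp hs).2, by linarith⟩)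
  have hTL0 : 0 ≤ T * Real.log T := by positivity
  have a6 : 40 * K0 * ∑ s ∈ F, |Φ (sh s.im) - g (torusPt (al M) s.im)| *
      ((mult riemannZeta s : ℝ) * nn T s) ≤ ε / 4 * NN1 := by
    have b1 : ε1 * ∑ s ∈ F, (mult riemannZeta s : ℝ) * nn T s ≤
        ε / (8 * 7 * 40 * K0 * Ct) * (Ct * (T * Real.log T)) :=
      mul_le_mul hε1a a4 (Finset.sum_nonneg fun s _ => hpos s) (by positivity)
    have b2 : 2 * B0 * ∑ s ∈ F.filter (fun s => s.im ∈ Bd), (mult riemannZeta s : ℝ) * nn T s ≤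
        2 * B0 * (ε / (8 * 7 * 40 * K0 * (2 * B0 + 1)) * (T * Real.log T)) :=
      mul_le_mul_of_nonneg_left a5 (by positivity)
    have b3 : 2 * B0 * (ε / (8 * 7 * 40 * K0 * (2 * B0 + 1)) * (T * Real.log T)) ≤
        ε / (8 * 7 * 40 * K0) * (T * Real.log T) := by
      have : 2 * B0 * (ε / (8 * 7 * 40 * K0 * (2 * B0 + 1)) * (T * Real.log T)) =
          2 * B0 / (2 * B0 + 1) * (ε / (8 * 7 * 40 * K0) * (T * Real.log T)) := by field_simp
      rw [this]
      apply mul_le_of_le_one_left (by positivity)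
      rw [div_le_one (by positivity)]
      linarith
    have b4 : ε / (8 * 7 * 40 * K0 * Ct) * (Ct * (T * Real.log T)) =
        ε / (8 * 7 * 40 * K0) * (T * Real.log T) := by field_simp
    have b5 : 40 * K0 * ∑ s ∈ F, |Φ (sh s.im) - g (torusPt (al M) s.im)| *
        ((mult riemannZeta s : ℝ) * nn T s) ≤
        40 * K0 * (2 * (ε / (8 * 7 * 40 * K0) * (T * Real.log T))) :=
      mul_le_mul_of_nonneg_left (by linarith) (by positivity)
    have b6 : 40 * K0 * (2 * (ε / (8 * 7 * 40 * K0) * (T * Real.log T))) =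
        ε / 28 * (T * Real.log T) := by field_simp; ring
    have b7 : ε / 28 * (T * Real.log T) ≤ ε / 28 * (7 * NN1) :=
      mul_le_mul_of_nonneg_left hN (by positivity)
    linarith
  -- the main term
  have a7 : |(∫ x, g x ∂(haarT (pr M).card)) * μ * NN1 - m * μ * NN1| ≤ ε / 2 * NN1 := by
    have e1 : (∫ x, g x ∂(haarT (pr M).card)) * μ * NN1 - m * μ * NN1 =
        -((m - ∫ x, g x ∂(haarT (pr M).card)) * μ * NN1) := by ring
    rw [e1, abs_neg, abs_mul, abs_mul, abs_of_nonneg hNN0]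
    apply mul_le_mul_of_nonneg_right _ hNN0
    have hμ0 := abs_nonneg μ
    have b1 : ε1 ≤ ε / (16 * (|μ| + 1)) := hε1b
    have b2 : (2 * B0 + 1) * η1 ≤ ε / (16 * (|μ| + 1)) := by
      calc (2 * B0 + 1) * η1 ≤ (2 * B0 + 1) * (ε / (16 * (2 * B0 + 1) * (|μ| + 1))) :=
            mul_le_mul_of_nonneg_left hη1b (by positivity)
        _ = _ := by field_simp
    have b3 : |m - ∫ x, g x ∂(haarT (pr M).card)| ≤ ε / (8 * (|μ| + 1)) := by
      have e2 : ε / (8 * (|μ| + 1)) = ε / (16 * (|μ| + 1)) + ε / (16 * (|μ| + 1)) := by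
        field_simp; ring
      rw [e2]
      linarith
    calc |m - ∫ x, g x ∂(haarT (pr M).card)| * |μ| ≤ ε / (8 * (|μ| + 1)) * (|μ| + 1) :=
          mul_le_mul b3 (by linarith) hμ0 (by positivity)
      _ = ε / 8 := by field_simp
      _ ≤ ε / 2 := by linarith
  have a8 := a2.trans a6
  obtain ⟨x1, x2⟩ := abs_le.1 a8
  obtain ⟨x3, x4⟩ := abs_le.1 a1
  obtain ⟨x5, x6⟩ := abs_le.1 a7
  rw [abs_le]
  constructor <;> linarith

end Pool.Agent.R304.UP
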