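import Pool.Agent.R321.FB3
import Pool.Agent.H345R2.A2.Smooth

/-! Moments of the majorant of the local counts of zeros, and the pairs with one member in a small
set. -/

open Filter Topology Set MeasureTheory

namespace Pool.Agent.R304.UP

open SP (RHs ZZ mu Mk wt)
open SP.ExpAux (wt_nonneg wt_cont Mk_cont Mk_nonneg dd_pos Ya_cont Mk_eq)
open H370 (Zf mult good_zeta)
open Pool.Agent.R321.FA (avg_block)

/-- all moments of `Mk` -/
theorem Mk_mom (hRH : RHs) (m : ℕ) : ∃ C T0 : ℝ, 0 < C ∧ 10 ≤ T0 ∧ ∀ T : ℝ, T0 ≤ T →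
    ∀ V1 V2 : ℝ, V1 ≤ V2 → T + Real.log T ≤ V1 → V2 ≤ 2 * T - Real.log T →
    ∫ t in V1..V2, Mk T 1 t ^ m ≤ C * T := by
  obtain ⟨C, T0, hC, hT0, h⟩ := SP.exp_main hRH (1 / 4) 1 1 (by norm_num) (by norm_num) one_pos
    one_pos
  refine ⟨3 * (m.factorial * C), T0, by positivity, hT0, fun T hT V1 V2 hV hV1 hV2 => ?_⟩
  have hT10 := hT0.trans hT
  have hT1 : 1 ≤ T := by linarith
  have hL : 0 ≤ Real.log T := Real.log_nonneg hT1
  have hD := dd_pos (κ := 1 / 4) hT10
  have hDT : SG.dd (1 / 4) T ≤ T := by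
    unfold SG.dd
    calc T ^ (1 - (1 / 4 : ℝ) / 2) ≤ T ^ (1 : ℝ) :=
          Real.rpow_le_rpow_of_exponent_le hT1 (by norm_num)
      _ = T := Real.rpow_one T
  apply avg_block ((Mk_cont hT1 1).pow m) (fun t => pow_nonneg (Mk_nonneg hT1 1 t) m) hD hDT hV
    (by linarith) (by linarith)
  intro t0
  have h1 := h T hT t0 V1 V2 hV hV1 hV2
  have hc : Continuous fun t => wt t0 (SG.dd (1 / 4) T) t *
      Real.exp (1 * (‖SP.Ya T 1 t‖ + Mk T 1 t)) :=
    (wt_cont _ _).mul (Real.continuous_exp.comp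
      (continuous_const.mul ((Ya_cont hT1 one_pos).norm.add (Mk_cont hT1 1))))
  calc ∫ t in V1..V2, wt t0 (SG.dd (1 / 4) T) t * Mk T 1 t ^ m ≤
      ∫ t in V1..V2, m.factorial * (wt t0 (SG.dd (1 / 4) T) t *
        Real.exp (1 * (‖SP.Ya T 1 t‖ + Mk T 1 t))) := by
        apply intervalIntegral.integral_mono_on hV
          (((wt_cont _ _).mul ((Mk_cont hT1 1).pow m)).intervalIntegrable _ _)
          ((hc.const_mul _).intervalIntegrable _ _)
        intro t _
        have g1 := Mk_nonneg hT1 1 t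
        have g2 : Mk T 1 t ^ m ≤ m.factorial * Real.exp (1 * (‖SP.Ya T 1 t‖ + Mk T 1 t)) := by
          have g3 := Real.pow_div_factorial_le_exp (Mk T 1 t) g1 m
          rw [div_le_iff₀ (by positivity)] at g3
          have g4 : Real.exp (Mk T 1 t) ≤ Real.exp (1 * (‖SP.Ya T 1 t‖ + Mk T 1 t)) := by
            apply Real.exp_le_exp.2
            have := norm_nonneg (SP.Ya T 1 t)
            linarith
          calc _ ≤ Real.exp (Mk T 1 t) * m.factorial := g3
            _ ≤ Real.exp (1 * (‖SP.Ya T 1 t‖ + Mk T 1 t)) * m.factorial := by gcongr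
            _ = _ := by ring
        calc wt t0 (SG.dd (1 / 4) T) t * Mk T 1 t ^ m ≤ wt t0 (SG.dd (1 / 4) T) t *
              (m.factorial * Real.exp (1 * (‖SP.Ya T 1 t‖ + Mk T 1 t))) :=
              mul_le_mul_of_nonneg_left g2 (wt_nonneg _ _ _)
          _ = _ := by ring
    _ = m.factorial * ∫ t in V1..V2, wt t0 (SG.dd (1 / 4) T) t *
        Real.exp (1 * (‖SP.Ya T 1 t‖ + Mk T 1 t)) := intervalIntegral.integral_const_mul _ _
    _ ≤ m.factorial * (C * SG.dd (1 / 4) T) := by gcongr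
    _ = m.factorial * C * SG.dd (1 / 4) T := by ring

/-- the weight of the zeros near `s`, on the scale of the mean spacing -/
noncomputable def nn (T : ℝ) (s : ℂ) : ℝ :=
  ∑ s' ∈ Zf riemannZeta T (2 * T), (mult riemannZeta s' : ℝ) *
    (1 / (1 + (Real.log T * (s'.im - s.im)) ^ 2))

lemma Mk_Zf {T : ℝ} (hT : 1 ≤ T) (t : ℝ) : Mk T 1 t = ∑ s ∈ Zf riemannZeta T (2 * T),
    (mult riemannZeta s : ℝ) * Real.exp (-(s.im - t) ^ 2 / 2) *
      (1 / (1 + (Real.log T * (s.im - t)) ^ 2)) := by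
  rw [Mk_eq hT]
  refine Finset.sum_congr ?_ fun s _ => ?_
  · ext s
    rw [Set.Finite.mem_toFinset, H370.mem_Zf good_zeta hT]
    rfl
  · rw [div_one, mul_one_div]
    rfl

lemma log_ge {T : ℝ} (hT : 10 ≤ T) : 1 ≤ Real.log T := by
  rw [Real.le_log_iff_exp_le (by linarith)]
  have := Real.exp_one_lt_d9
  linarith

lemma nn_nonneg (T : ℝ) (s : ℂ) : 0 ≤ nn T s := by
  unfold nn
  refine Finset.sum_nonneg fun s' _ => ?_
  positivity

lemma nn_le_Mk : ∃ C : ℝ, 1 ≤ C ∧ ∀ T : ℝ, 10 ≤ T → ∀ (s : ℂ) (t : ℝ),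
    |t - s.im| ≤ 1 / (2 * Real.log T) → nn T s ≤ C * (1 + Mk T 1 t) := by
  obtain ⟨C, hC, h⟩ := H370.A2.weight_sum good_zeta
  refine ⟨4 * C + 4, by linarith, fun T hT s t hst => ?_⟩
  have hL := log_ge hT
  set L := Real.log T with hLdef
  have hw := h T hT T (2 * T) le_rfl (by linarith) t
  rw [Mk_Zf (by linarith)]
  have hterm : ∀ s' ∈ Zf riemannZeta T (2 * T), (mult riemannZeta s' : ℝ) *
      (1 / (1 + (L * (s'.im - s.im)) ^ 2)) ≤
      4 * ((mult riemannZeta s' : ℝ) * Real.exp (-(s'.im - t) ^ 2 / 2) *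
        (1 / (1 + (L * (s'.im - t)) ^ 2))) +
      4 / L * ((mult riemannZeta s' : ℝ) * (1 / (1 + (s'.im - t) ^ 2))) := by
    intro s' _
    have hm : (0 : ℝ) ≤ mult riemannZeta s' := Nat.cast_nonneg _
    set y := L * (s'.im - t) with hy
    have h1 : 1 + y ^ 2 ≤ 2 * (1 + (L * (s'.im - s.im)) ^ 2) := by
      have e : y = L * (s'.im - s.im) - L * (t - s.im) := by rw [hy]; ring
      have h2 : |L * (t - s.im)| ≤ 1 / 2 := by
        rw [abs_mul, abs_of_pos (by linarith)]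
        calc L * |t - s.im| ≤ L * (1 / (2 * L)) := by gcongr
          _ = 1 / 2 := by field_simp
      obtain ⟨h3, h4⟩ := abs_le.mp h2
      rw [e]
      nlinarith [sq_nonneg (L * (s'.im - s.im) + L * (t - s.im)), sq_nonneg (L * (t - s.im))]
    have h2 : 1 / (1 + (L * (s'.im - s.im)) ^ 2) ≤ 2 * (1 / (1 + y ^ 2)) := by
      rw [mul_one_div, div_le_div_iff₀ (by positivity) (by positivity)]
      linarith
    rcases le_or_gt (|s'.im - t|) 1 with hc | hc
    · have h3 : 1 / 2 ≤ Real.exp (-(s'.im - t) ^ 2 / 2) := by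
        have h4 : (s'.im - t) ^ 2 ≤ 1 := by
          rw [← sq_abs]; nlinarith [abs_nonneg (s'.im - t)]
        have h5 := Real.add_one_le_exp (-(s'.im - t) ^ 2 / 2)
        linarith
      have h6 : (mult riemannZeta s' : ℝ) * (1 / (1 + (L * (s'.im - s.im)) ^ 2)) ≤
          (mult riemannZeta s' : ℝ) * (2 * (1 / (1 + y ^ 2))) :=
        mul_le_mul_of_nonneg_left h2 hm
      have h7 : 0 ≤ (mult riemannZeta s' : ℝ) * (1 / (1 + y ^ 2)) := by positivity
      have h8 : 0 ≤ 4 / L * ((mult riemannZeta s' : ℝ) * (1 / (1 + (s'.im - t) ^ 2))) := by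
        positivity
      nlinarith [mul_le_mul_of_nonneg_left h3 h7]
    · have h3 : 1 / (1 + y ^ 2) ≤ 2 / L * (1 / (1 + (s'.im - t) ^ 2)) := by
        rw [div_mul_div_comm, mul_one, div_le_div_iff₀ (by positivity) (by positivity), one_mul]
        have h4 : 1 < (s'.im - t) ^ 2 := by
          rw [← sq_abs]; nlinarith
        have h5 : y ^ 2 = L ^ 2 * (s'.im - t) ^ 2 := by rw [hy]; ring
        rw [h5]
        have h6 : L ≤ L ^ 2 := by nlinarith
        nlinarith [mul_nonneg (sub_nonneg.2 h6) (sub_nonneg.2 h4.le)]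
      have h4 : (mult riemannZeta s' : ℝ) * (1 / (1 + (L * (s'.im - s.im)) ^ 2)) ≤
          (mult riemannZeta s' : ℝ) * (2 * (2 / L * (1 / (1 + (s'.im - t) ^ 2)))) :=
        mul_le_mul_of_nonneg_left (h2.trans (by linarith)) hm
      have h5 : 0 ≤ 4 * ((mult riemannZeta s' : ℝ) * Real.exp (-(s'.im - t) ^ 2 / 2) *
        (1 / (1 + y ^ 2))) := by positivity
      have h6 : (mult riemannZeta s' : ℝ) * (2 * (2 / L * (1 / (1 + (s'.im - t) ^ 2)))) =
          4 / L * ((mult riemannZeta s' : ℝ) * (1 / (1 + (s'.im - t) ^ 2))) := by ring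
      linarith
  unfold nn
  refine (Finset.sum_le_sum hterm).trans ?_
  rw [Finset.sum_add_distrib, ← Finset.mul_sum, ← Finset.mul_sum]
  have h1 : 4 / L * ∑ s' ∈ Zf riemannZeta T (2 * T), (mult riemannZeta s' : ℝ) *
      (1 / (1 + (s'.im - t) ^ 2)) ≤ 4 / L * (C * L) :=
    mul_le_mul_of_nonneg_left hw (by positivity)
  have h2 : 4 / L * (C * L) = 4 * C := by field_simp
  have h3 : 0 ≤ ∑ s ∈ Zf riemannZeta T (2 * T),
    (mult riemannZeta s : ℝ) * Real.exp (-(s.im - t) ^ 2 / 2) *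
      (1 / (1 + (L * (s.im - t)) ^ 2)) := Finset.sum_nonneg fun s _ => by positivity
  nlinarith

/-- the zeros in a cell -/
lemma cell_le {T : ℝ} (hT : 10 ≤ T) (t : ℝ) :
    ∑ s ∈ (Zf riemannZeta T (2 * T)).filter (fun s => |t - s.im| ≤ 1 / (2 * Real.log T)),
      (mult riemannZeta s : ℝ) ≤ 4 * Mk T 1 t := by
  have hL := log_ge hT
  set L := Real.log T with hLdef
  rw [Mk_Zf (by linarith), Finset.mul_sum]
  refine le_trans (Finset.sum_le_sum fun s hs => ?_)
    (Finset.sum_le_sum_of_subset_of_nonneg (Finset.filter_subset _ _) fun s _ _ => by positivity)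
  have hs2 := (Finset.mem_filter.mp hs).2
  have hm : (0 : ℝ) ≤ mult riemannZeta s := Nat.cast_nonneg _
  have h1 : |s.im - t| ≤ 1 / (2 * L) := by rw [abs_sub_comm]; exact hs2
  have h2 : 1 / (2 * L) ≤ 1 / 2 := by
    apply one_div_le_one_div_of_le (by norm_num)
    linarith
  have h3 : (s.im - t) ^ 2 ≤ 1 / 4 := by
    rw [← sq_abs]; nlinarith [abs_nonneg (s.im - t)]
  have h4 := Real.add_one_le_exp (-(s.im - t) ^ 2 / 2)
  have h5 : (L * (s.im - t)) ^ 2 ≤ 1 / 4 := by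
    have h6 : |L * (s.im - t)| ≤ 1 / 2 := by
      rw [abs_mul, abs_of_pos (by linarith)]
      calc L * |s.im - t| ≤ L * (1 / (2 * L)) := by gcongr
        _ = 1 / 2 := by field_simp
    rw [← sq_abs]; nlinarith [abs_nonneg (L * (s.im - t))]
  have h7 : 4 / 5 ≤ 1 / (1 + (L * (s.im - t)) ^ 2) := by
    rw [div_le_div_iff₀ (by norm_num) (by positivity)]
    linarith
  have h8 : 1 / 2 ≤ Real.exp (-(s.im - t) ^ 2 / 2) := by linarith
  have h9 : 1 ≤ 4 * (Real.exp (-(s.im - t) ^ 2 / 2) * (1 / (1 + (L * (s.im - t)) ^ 2))) := by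
    nlinarith
  calc (mult riemannZeta s : ℝ) = mult riemannZeta s * 1 := (mul_one _).symm
    _ ≤ mult riemannZeta s * (4 * (Real.exp (-(s.im - t) ^ 2 / 2) *
        (1 / (1 + (L * (s.im - t)) ^ 2)))) := mul_le_mul_of_nonneg_left h9 hm
    _ = _ := by ring

end Pool.Agent.R304.UP
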