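import Pool.Agent.R304.UP.Mom

/-! The pairs of zeros with one member in a small set. -/

open Filter Topology Set MeasureTheory

namespace Pool.Agent.R304.UP

open SP (RHs ZZ mu Mk wt)
open SP.ExpAux (wt_nonneg wt_cont Mk_cont Mk_nonneg dd_pos Ya_cont Mk_eq)
open H370 (Zf mult good_zeta)

lemma sq_le_four {A x : ℝ} (hA : 0 < A) : x ^ 2 ≤ A ^ 2 + x ^ 4 / A ^ 2 := by
  have h1 : 0 < A ^ 2 := by positivity
  rw [← sub_le_iff_le_add', le_div_iff₀ h1]
  nlinarith [sq_nonneg (x ^ 2 - A ^ 2), sq_nonneg (A ^ 2), sq_nonneg (x ^ 2)]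

/-- the interior zeros -/
lemma interior (hRH : RHs) : ∃ C T0 : ℝ, 0 < C ∧ 10 ≤ T0 ∧ ∀ T : ℝ, T0 ≤ T → ∀ A : ℝ, 0 < A →
    ∀ S : Set ℝ, MeasurableSet S → S ⊆ Icc (T + Real.log T) (2 * T - Real.log T) →
    ∀ F : Finset ℂ, F ⊆ Zf riemannZeta T (2 * T) →
    (∀ s ∈ F, Icc (s.im - 1 / (2 * Real.log T)) (s.im + 1 / (2 * Real.log T)) ⊆ S) →
    ∑ s ∈ F, (mult riemannZeta s : ℝ) * nn T s ≤
      C * Real.log T * (A ^ 2 * (volume S).toReal + T / A ^ 2) := by
  classical
  obtain ⟨C1, hC1, hnn⟩ := nn_le_Mk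
  obtain ⟨C4, T0, hC4, hT0, hmom⟩ := Mk_mom hRH 4
  obtain ⟨T1, hT1⟩ := ((Real.tendsto_pow_log_div_mul_add_atTop 1 0 1 one_ne_zero).eventually
    (gt_mem_nhds (show (0 : ℝ) < 1 / 2 by norm_num))).exists_forall_of_atTop
  refine ⟨4 * C1 * (8 * (1 + C4)), max T0 T1, by positivity, hT0.trans (le_max_left _ _),
    fun T hTm A hA S hS hSI F hF hFS => ?_⟩
  have hT : T0 ≤ T := (le_max_left _ _).trans hTm
  have hT10 := hT0.trans hT
  have hL := log_ge hT10
  have hlogT : Real.log T ≤ T / 2 := by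
    have h1 := hT1 T ((le_max_right _ _).trans hTm)
    simp only [pow_one, one_mul, add_zero] at h1
    rw [div_lt_iff₀ (by linarith)] at h1
    linarith
  set L := Real.log T with hLdef
  have hT1' : 1 ≤ T := by linarith
  have hMc : Continuous (Mk T 1) := Mk_cont hT1' 1
  have hM0 : ∀ t, 0 ≤ Mk T 1 t := Mk_nonneg hT1' 1
  set V1 := T + L with hV1
  set V2 := 2 * T - L with hV2
  have hV : V1 ≤ V2 := by rw [hV1, hV2]; linarith
  set G : ℝ → ℝ := fun t => C1 * (1 + Mk T 1 t) with hG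
  have hGc : Continuous G := continuous_const.mul (continuous_const.add hMc)
  have hG0 : ∀ t, 0 ≤ G t := fun t => by have := hM0 t; simp only [hG]; positivity
  have hIcc : ∀ g : ℝ → ℝ, Continuous g → IntegrableOn g S := fun g hg =>
    (hg.continuousOn.integrableOn_compact isCompact_Icc).mono_set hSI
  set J : ℂ → Set ℝ := fun s => Icc (s.im - 1 / (2 * L)) (s.im + 1 / (2 * L)) with hJ
  have hJm : ∀ s, MeasurableSet (J s) := fun s => measurableSet_Icc
  -- one zero
  have h1 : ∀ s ∈ F, (mult riemannZeta s : ℝ) * nn T s * (1 / L) ≤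
      ∫ t in S, (J s).indicator (fun t => (mult riemannZeta s : ℝ) * G t) t := by
    intro s hs
    rw [setIntegral_indicator (hJm s), Set.inter_eq_right.mpr (hFS s hs)]
    have hvol : (volume (J s)).toReal = 1 / L := by
      simp only [hJ]
      rw [Real.volume_Icc, ENNReal.toReal_ofReal]
      · field_simp; ring
      · have : 0 < 1 / (2 * L) := by positivity
        linarith
    have h2 : ∫ t in J s, (mult riemannZeta s : ℝ) * nn T s =
        (mult riemannZeta s : ℝ) * nn T s * (1 / L) := by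
      rw [setIntegral_const, smul_eq_mul, Measure.real, hvol, mul_comm]
    rw [← h2]
    refine setIntegral_mono_on (integrableOn_const (by
      simp only [hJ]; rw [Real.volume_Icc]; exact ENNReal.ofReal_ne_top))
      ((continuous_const.mul hGc).continuousOn.integrableOn_compact isCompact_Icc) (hJm s)
      fun t ht => ?_
    apply mul_le_mul_of_nonneg_left _ (Nat.cast_nonneg _)
    apply hnn T hT10 s t
    rw [abs_le]
    obtain ⟨a1, a2⟩ := ht
    constructor <;> linarith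
  have h2 : (∑ s ∈ F, (mult riemannZeta s : ℝ) * nn T s) * (1 / L) ≤
      ∫ t in S, ∑ s ∈ F, (J s).indicator (fun t => (mult riemannZeta s : ℝ) * G t) t := by
    rw [Finset.sum_mul, integral_finsetSum]
    · exact Finset.sum_le_sum h1
    · intro s _
      exact (hIcc _ (continuous_const.mul hGc)).indicator (hJm s)
  have h3 : ∫ t in S, ∑ s ∈ F, (J s).indicator (fun t => (mult riemannZeta s : ℝ) * G t) t ≤
      ∫ t in S, 4 * C1 * (A ^ 2 + (1 + Mk T 1 t) ^ 4 / A ^ 2) := by
    refine setIntegral_mono_on (integrable_finsetSum _ fun s _ =>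
      (hIcc _ (continuous_const.mul hGc)).indicator (hJm s))
      (hIcc _ (by fun_prop)) hS fun t ht => ?_
    have e1 : ∀ s ∈ F, (J s).indicator (fun t => (mult riemannZeta s : ℝ) * G t) t =
        (if |t - s.im| ≤ 1 / (2 * L) then (mult riemannZeta s : ℝ) else 0) * G t := by
      intro s _
      by_cases h : |t - s.im| ≤ 1 / (2 * L)
      · rw [if_pos h, Set.indicator_of_mem]
        rw [abs_le] at h
        exact ⟨by linarith [h.1], by linarith [h.2]⟩
      · rw [if_neg h, Set.indicator_of_notMem, zero_mul]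
        intro h4
        apply h
        rw [abs_le]
        exact ⟨by linarith [h4.1], by linarith [h4.2]⟩
    rw [Finset.sum_congr rfl e1, ← Finset.sum_mul]
    have e2 : ∑ s ∈ F, (if |t - s.im| ≤ 1 / (2 * L) then (mult riemannZeta s : ℝ) else 0) ≤
        4 * Mk T 1 t := by
      refine le_trans ?_ (cell_le hT10 t)
      rw [Finset.sum_filter]
      exact Finset.sum_le_sum_of_subset_of_nonneg hF fun s _ _ => by split_ifs <;> positivity
    calc _ ≤ 4 * Mk T 1 t * G t := mul_le_mul_of_nonneg_right e2 (hG0 t)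
      _ = 4 * C1 * (Mk T 1 t * (1 + Mk T 1 t)) := by simp only [hG]; ring
      _ ≤ 4 * C1 * (1 + Mk T 1 t) ^ 2 := by
          apply mul_le_mul_of_nonneg_left _ (by linarith)
          nlinarith [hM0 t]
      _ ≤ _ := mul_le_mul_of_nonneg_left (sq_le_four hA) (by linarith)
  have h4 : ∫ t in S, 4 * C1 * (A ^ 2 + (1 + Mk T 1 t) ^ 4 / A ^ 2) =
      4 * C1 * (A ^ 2 * (volume S).toReal + (∫ t in S, (1 + Mk T 1 t) ^ 4) / A ^ 2) := by
    rw [integral_const_mul, integral_add (hIcc _ continuous_const) (hIcc _ (by fun_prop)),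
      setIntegral_const, integral_div, smul_eq_mul, Measure.real]
    ring
  have h5 : ∫ t in S, (1 + Mk T 1 t) ^ 4 ≤ 8 * (1 + C4) * T := by
    have a1 : ∫ t in S, (1 + Mk T 1 t) ^ 4 ≤ ∫ t in Icc V1 V2, (1 + Mk T 1 t) ^ 4 := by
      refine setIntegral_mono_set ?_ ?_ ?_
      · exact (by fun_prop : Continuous fun t => (1 + Mk T 1 t) ^ 4).continuousOn.integrableOn_compact
          isCompact_Icc
      · exact Eventually.of_forall fun t => by have := hM0 t; positivity
      · exact hSI.eventuallyLE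
    have a2 : ∫ t in Icc V1 V2, (1 + Mk T 1 t) ^ 4 ≤ ∫ t in Icc V1 V2, (8 + 8 * Mk T 1 t ^ 4) := by
      refine setIntegral_mono_on ?_ ?_ measurableSet_Icc fun t _ => ?_
      · exact (by fun_prop : Continuous fun t => (1 + Mk T 1 t) ^ 4).continuousOn.integrableOn_compact
          isCompact_Icc
      · exact (by fun_prop : Continuous fun t => 8 + 8 * Mk T 1 t ^ 4).continuousOn.integrableOn_compact
          isCompact_Icc
      · have := hM0 t
        nlinarith [sq_nonneg (Mk T 1 t - 1), sq_nonneg (Mk T 1 t ^ 2 - 1),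
          sq_nonneg (Mk T 1 t ^ 2 - Mk T 1 t), mul_nonneg this (sq_nonneg (Mk T 1 t - 1))]
    have a3 : ∫ t in Icc V1 V2, (8 + 8 * Mk T 1 t ^ 4) = 8 * (V2 - V1) + 8 * ∫ t in V1..V2, Mk T 1 t ^ 4 := by
      rw [integral_Icc_eq_integral_Ioc, ← intervalIntegral.integral_of_le hV,
        intervalIntegral.integral_add (f := fun _ => (8 : ℝ)) (g := fun t => 8 * Mk T 1 t ^ 4) (by simp)
          ((continuous_const.mul (hMc.pow 4)).intervalIntegrable _ _),
        intervalIntegral.integral_const, intervalIntegral.integral_const_mul, smul_eq_mul]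
      ring
    have a4 := hmom T hT V1 V2 hV le_rfl le_rfl
    have a5 : V2 - V1 ≤ T := by rw [hV1, hV2]; linarith
    linarith
  have h6 : (∑ s ∈ F, (mult riemannZeta s : ℝ) * nn T s) * (1 / L) ≤
      4 * C1 * (8 * (1 + C4)) * (A ^ 2 * (volume S).toReal + T / A ^ 2) := by
    refine h2.trans (h3.trans ?_)
    rw [h4]
    have b1 : (∫ t in S, (1 + Mk T 1 t) ^ 4) / A ^ 2 ≤ 8 * (1 + C4) * (T / A ^ 2) := by
      rw [← mul_div_assoc]
      gcongr
    have b2 : A ^ 2 * (volume S).toReal ≤ 8 * (1 + C4) * (A ^ 2 * (volume S).toReal) := by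
      apply le_mul_of_one_le_left (by positivity)
      linarith
    have b3 : 4 * C1 * (8 * (1 + C4)) * (A ^ 2 * (volume S).toReal + T / A ^ 2) =
        4 * C1 * (8 * (1 + C4) * (A ^ 2 * (volume S).toReal) + 8 * (1 + C4) * (T / A ^ 2)) := by ring
    rw [b3]
    apply mul_le_mul_of_nonneg_left _ (by linarith)
    linarith
  rw [mul_one_div, div_le_iff₀ (by linarith)] at h6
  linarith

/-- the total weight near the end points -/
lemma boundary : ∃ C : ℝ, 0 < C ∧ ∀ T : ℝ, 10 ≤ T → ∀ x : ℝ, ∀ F : Finset ℂ,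
    F ⊆ Zf riemannZeta T (2 * T) → (∀ s ∈ F, |s.im - x| ≤ 2 * Real.log T) →
    ∑ s ∈ F, (mult riemannZeta s : ℝ) * nn T s ≤ C * Real.log T ^ 4 := by
  obtain ⟨C, hC, h⟩ := H370.A2.weight_sum good_zeta
  refine ⟨5 * C ^ 2, by positivity, fun T hT x F hF hx => ?_⟩
  have hL := log_ge hT
  set L := Real.log T with hLdef
  have h1 : ∀ s : ℂ, nn T s ≤ C * L := by
    intro s
    refine le_trans ?_ (h T hT T (2 * T) le_rfl (by linarith) s.im)
    unfold nn
    refine Finset.sum_le_sum fun s' _ => ?_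
    apply mul_le_mul_of_nonneg_left _ (Nat.cast_nonneg _)
    apply one_div_le_one_div_of_le (by positivity)
    have e : (L * (s'.im - s.im)) ^ 2 = L ^ 2 * (s'.im - s.im) ^ 2 := by ring
    rw [← hLdef, e]
    have : 1 ≤ L ^ 2 := by nlinarith
    nlinarith [mul_le_mul_of_nonneg_right this (sq_nonneg (s'.im - s.im))]
  have h2 : ∑ s ∈ F, (mult riemannZeta s : ℝ) ≤ 5 * L ^ 2 * (C * L) := by
    have h3 := h T hT T (2 * T) le_rfl (by linarith) x
    calc ∑ s ∈ F, (mult riemannZeta s : ℝ) ≤ ∑ s ∈ F, 5 * L ^ 2 * ((mult riemannZeta s : ℝ) *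
          (1 / (1 + (s.im - x) ^ 2))) := by
          refine Finset.sum_le_sum fun s hs => ?_
          have h4 := hx s hs
          have h5 : (s.im - x) ^ 2 ≤ 4 * L ^ 2 := by
            rw [← sq_abs]
            nlinarith [abs_nonneg (s.im - x)]
          have h6 : 1 ≤ 5 * L ^ 2 * (1 / (1 + (s.im - x) ^ 2)) := by
            rw [mul_one_div, le_div_iff₀ (by positivity)]
            nlinarith
          have hm : (0 : ℝ) ≤ mult riemannZeta s := Nat.cast_nonneg _
          nlinarith [mul_le_mul_of_nonneg_left h6 hm]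
      _ = 5 * L ^ 2 * ∑ s ∈ F, (mult riemannZeta s : ℝ) * (1 / (1 + (s.im - x) ^ 2)) := by
          rw [Finset.mul_sum]
      _ ≤ 5 * L ^ 2 * ∑ s ∈ Zf riemannZeta T (2 * T), (mult riemannZeta s : ℝ) *
          (1 / (1 + (s.im - x) ^ 2)) := by
          apply mul_le_mul_of_nonneg_left _ (by positivity)
          exact Finset.sum_le_sum_of_subset_of_nonneg hF fun s _ _ => by positivity
      _ ≤ _ := mul_le_mul_of_nonneg_left h3 (by positivity)
  calc ∑ s ∈ F, (mult riemannZeta s : ℝ) * nn T s ≤ ∑ s ∈ F, (mult riemannZeta s : ℝ) * (C * L) :=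
        Finset.sum_le_sum fun s _ => mul_le_mul_of_nonneg_left (h1 s) (Nat.cast_nonneg _)
    _ = (∑ s ∈ F, (mult riemannZeta s : ℝ)) * (C * L) := by rw [Finset.sum_mul]
    _ ≤ 5 * L ^ 2 * (C * L) * (C * L) := mul_le_mul_of_nonneg_right h2 (by positivity)
    _ = _ := by ring

/-- **small sets carry few pairs** -/
theorem small_set (hRH : RHs) {ε : ℝ} (hε : 0 < ε) : ∃ η : ℝ, 0 < η ∧ ∃ T0 : ℝ, 10 ≤ T0 ∧
    ∀ T : ℝ, T0 ≤ T → ∀ W : Set ℝ, volume (W ∩ Icc T (2 * T)) ≤ ENNReal.ofReal (η * T) →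
    ∀ F : Finset ℂ, F ⊆ Zf riemannZeta T (2 * T) →
    (∀ s ∈ F, ∀ t : ℝ, |t - s.im| ≤ 1 / 2 → t ∈ W) →
    ∑ s ∈ F, (mult riemannZeta s : ℝ) * nn T s ≤ ε * (T * Real.log T) := by
  classical
  obtain ⟨C1, T1, hC1, hT1, hint⟩ := interior hRH
  obtain ⟨C2, hC2, hbd⟩ := boundary
  obtain ⟨A, hA⟩ : ∃ A : ℝ, A = Real.sqrt (4 * C1 / ε) := ⟨_, rfl⟩
  have hA0 : 0 < A := by rw [hA]; positivity
  have hA2 : A ^ 2 = 4 * C1 / ε := by rw [hA]; exact Real.sq_sqrt (by positivity)
  refine ⟨ε / (4 * C1 * A ^ 2), by positivity, ?_⟩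
  have ev : ∀ᶠ T : ℝ in atTop, Real.log T ^ 4 / (1 * T + 0) < ε / (4 * C2) :=
    (Real.tendsto_pow_log_div_mul_add_atTop 1 0 4 one_ne_zero).eventually
      (gt_mem_nhds (show (0 : ℝ) < ε / (4 * C2) by positivity))
  obtain ⟨T2, hT2⟩ := ev.exists_forall_of_atTop
  refine ⟨max T1 T2, le_max_of_le_left hT1, fun T hT W hW F hF hFW => ?_⟩
  have hTT1 : T1 ≤ T := (le_max_left _ _).trans hT
  have hT10 := hT1.trans hTT1
  have hL := log_ge hT10
  have h2 := hT2 T ((le_max_right _ _).trans hT)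
  rw [one_mul, add_zero, div_lt_iff₀ (by linarith)] at h2
  set L := Real.log T with hLdef
  set S := toMeasurable volume (W ∩ Icc T (2 * T)) ∩ Icc (T + L) (2 * T - L) with hS
  have hSm : MeasurableSet S := (measurableSet_toMeasurable _ _).inter measurableSet_Icc
  have hSv : (volume S).toReal ≤ ε / (4 * C1 * A ^ 2) * T := by
    have h3 : volume S ≤ ENNReal.ofReal (ε / (4 * C1 * A ^ 2) * T) := by
      refine (measure_mono inter_subset_left).trans ?_
      rw [measure_toMeasurable]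
      exact hW
    exact ENNReal.toReal_le_of_le_ofReal (by positivity) h3
  set F1 := F.filter (fun s => T + 2 * L ≤ s.im ∧ s.im ≤ 2 * T - 2 * L) with hF1
  set F2 := F.filter (fun s => |s.im - T| ≤ 2 * L) with hF2
  set F3 := F.filter (fun s => |s.im - 2 * T| ≤ 2 * L) with hF3
  have hcov : F ⊆ F1 ∪ F2 ∪ F3 := by
    intro s hs
    have h3 := (H370.mem_Zf good_zeta (by linarith)).mp (hF hs)
    obtain ⟨-, -, h4, h5, -⟩ := h3
    rw [Finset.mem_union, Finset.mem_union, hF1, hF2, hF3, Finset.mem_filter, Finset.mem_filter,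
      Finset.mem_filter]
    rcases le_or_gt (T + 2 * L) s.im with h6 | h6
    · rcases le_or_gt s.im (2 * T - 2 * L) with h7 | h7
      · exact Or.inl (Or.inl ⟨hs, h6, h7⟩)
      · exact Or.inr ⟨hs, by rw [abs_le]; constructor <;> linarith⟩
    · exact Or.inl (Or.inr ⟨hs, by rw [abs_le]; constructor <;> linarith⟩)
  have hpos : ∀ s : ℂ, 0 ≤ (mult riemannZeta s : ℝ) * nn T s := fun s =>
    mul_nonneg (Nat.cast_nonneg _) (nn_nonneg T s)
  have hhalf : 1 / (2 * L) ≤ 1 / 2 := one_div_le_one_div_of_le (by norm_num) (by linarith)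
  have g1 := hint T hTT1 A hA0 S hSm inter_subset_right F1
    ((Finset.filter_subset _ _).trans hF) (by
      intro s hs t ht
      rw [hF1, Finset.mem_filter] at hs
      obtain ⟨hs1, hs2, hs3⟩ := hs
      obtain ⟨ht1, ht2⟩ := ht
      refine ⟨subset_toMeasurable _ _ ⟨hFW s hs1 t ?_, ?_, ?_⟩, ?_, ?_⟩
      · rw [abs_le]; constructor <;> linarith
      all_goals linarith)
  have g2 := hbd T hT10 T F2 ((Finset.filter_subset _ _).trans hF)
    (fun s hs => (Finset.mem_filter.mp hs).2)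
  have g3 := hbd T hT10 (2 * T) F3 ((Finset.filter_subset _ _).trans hF)
    (fun s hs => (Finset.mem_filter.mp hs).2)
  have g4 : ∑ s ∈ F, (mult riemannZeta s : ℝ) * nn T s ≤
      ∑ s ∈ F1, (mult riemannZeta s : ℝ) * nn T s + ∑ s ∈ F2, (mult riemannZeta s : ℝ) * nn T s +
        ∑ s ∈ F3, (mult riemannZeta s : ℝ) * nn T s := by
    refine (Finset.sum_le_sum_of_subset_of_nonneg hcov fun s _ _ => hpos s).trans ?_
    have h3 : ∀ X Y : Finset ℂ, ∑ s ∈ X ∪ Y, (mult riemannZeta s : ℝ) * nn T s ≤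
        ∑ s ∈ X, (mult riemannZeta s : ℝ) * nn T s + ∑ s ∈ Y, (mult riemannZeta s : ℝ) * nn T s := by
      intro X Y
      have := Finset.sum_union_inter (s₁ := X) (s₂ := Y)
        (f := fun s => (mult riemannZeta s : ℝ) * nn T s)
      have h4 : 0 ≤ ∑ s ∈ X ∩ Y, (mult riemannZeta s : ℝ) * nn T s :=
        Finset.sum_nonneg fun s _ => hpos s
      linarith
    have h4 := h3 (F1 ∪ F2) F3
    have h5 := h3 F1 F2
    linarith
  have k1 : C1 * L * (A ^ 2 * (volume S).toReal + T / A ^ 2) ≤ ε / 2 * (T * L) := by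
    have b1 : A ^ 2 * (volume S).toReal ≤ A ^ 2 * (ε / (4 * C1 * A ^ 2) * T) :=
      mul_le_mul_of_nonneg_left hSv (by positivity)
    have b2 : A ^ 2 * (ε / (4 * C1 * A ^ 2) * T) = ε / (4 * C1) * T := by field_simp
    have b3 : T / A ^ 2 = ε / (4 * C1) * T := by rw [hA2]; field_simp
    have b4 : C1 * L * (A ^ 2 * (volume S).toReal + T / A ^ 2) ≤
        C1 * L * (ε / (4 * C1) * T + ε / (4 * C1) * T) := by
      apply mul_le_mul_of_nonneg_left _ (by positivity)
      linarith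
    refine b4.trans (le_of_eq ?_)
    field_simp
    ring
  have k2 : C2 * L ^ 4 ≤ ε / 4 * (T * L) := by
    have b1 : C2 * L ^ 4 ≤ C2 * (ε / (4 * C2) * T) := mul_le_mul_of_nonneg_left h2.le hC2.le
    have b2 : C2 * (ε / (4 * C2) * T) = ε / 4 * T := by field_simp
    have b3 : ε / 4 * T ≤ ε / 4 * (T * L) := by
      apply mul_le_mul_of_nonneg_left _ (by positivity)
      nlinarith
    linarith
  linarith

end Pool.Agent.R304.UP
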